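import Pool.Agent.Y778.NK.Stm

/-!
# `K₀` of finite products of fields and of the group algebra of a finite abelian group
-/

set_option autoImplicit false

open Matrix

namespace Pool.Agent.Y350.NK

open Pool.Agent.Y778.NK
open Pool.Agent.H23R2.Cyc (ell ell_single ell_mul_comm ell_eq_sum)

noncomputable section

/-- factorization of an idempotent matrix over a field -/
theorem rank_fact {k : Type} [Field k] {n : Type} [Fintype n] [DecidableEq n]
    (e : Matrix n n k) (he : e * e = e) :
    ∃ (r : ℕ) (u : Matrix n (Fin r) k) (v : Matrix (Fin r) n k), u * v = e ∧ v * u = 1 := by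
  set f : (n → k) →ₗ[k] (n → k) := Matrix.toLin (Pi.basisFun k n) (Pi.basisFun k n) e with hf
  have hff : f ∘ₗ f = f := by
    rw [hf, ← Matrix.toLin_mul (Pi.basisFun k n) (Pi.basisFun k n) (Pi.basisFun k n), he]
  set W := LinearMap.range f with hW
  let b := Module.finBasis k W
  refine ⟨Module.finrank k W, LinearMap.toMatrix b (Pi.basisFun k n) W.subtype,
    LinearMap.toMatrix (Pi.basisFun k n) b f.rangeRestrict, ?_, ?_⟩
  · rw [← LinearMap.toMatrix_comp (Pi.basisFun k n) b (Pi.basisFun k n)]
    have h1 : W.subtype ∘ₗ f.rangeRestrict = f := by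
      ext x
      rfl
    rw [h1, hf, LinearMap.toMatrix_toLin]
  · rw [← LinearMap.toMatrix_comp b (Pi.basisFun k n) b]
    have h1 : f.rangeRestrict ∘ₗ W.subtype = LinearMap.id := by
      apply LinearMap.ext
      rintro ⟨x, y, rfl⟩
      apply Subtype.ext
      exact LinearMap.congr_fun hff y
    rw [h1, LinearMap.toMatrix_id]

section orth

variable {R : Type} [Ring R] {ι : Type} [Fintype ι] [DecidableEq ι]

/-- finite sums of orthogonal idempotents -/
theorem cl0_sum {I : Type*} [DecidableEq I] (s : Finset I) (f : I → Matrix ι ι R)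
    (hf : ∀ i, f i * f i = f i) (ho : ∀ i j, i ≠ j → f i * f j = 0) :
    ∃ h : (∑ i ∈ s, f i) * (∑ i ∈ s, f i) = ∑ i ∈ s, f i,
      cl0 (∑ i ∈ s, f i) h = ∑ i ∈ s, cl0 (f i) (hf i) := by
  induction s using Finset.induction_on with
  | empty =>
    have h0 : (∑ i ∈ (∅ : Finset I), f i) = 0 := Finset.sum_empty
    have h00 : (∑ i ∈ (∅ : Finset I), cl0 (f i) (hf i)) = 0 := Finset.sum_empty
    refine ⟨by simp, ?_⟩
    rw [h00, ← cl0_zero (R := R) (ι := ι)]
    exact cl0_eq _ _ h0
  | insert a s ha ih =>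
    obtain ⟨h, h1⟩ := ih
    have h2 : f a * ∑ i ∈ s, f i = 0 := by
      rw [Finset.mul_sum]
      exact Finset.sum_eq_zero fun i hi => ho a i (by rintro rfl; exact ha hi)
    have h3 : (∑ i ∈ s, f i) * f a = 0 := by
      rw [Finset.sum_mul]
      exact Finset.sum_eq_zero fun i hi => ho i a (by rintro rfl; exact ha hi)
    have h4 := cl0_orth (hf a) h h2 h3
    have h5 : ∑ i ∈ insert a s, f i = f a + ∑ i ∈ s, f i := Finset.sum_insert ha
    refine ⟨by rw [h5]; exact orth_idem (hf a) h h2 h3, ?_⟩
    refine (cl0_eq _ _ h5).trans (h4.trans ?_)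
    have h6 : ∑ i ∈ insert a s, cl0 (f i) (hf i) = cl0 (f a) (hf a) + ∑ i ∈ s, cl0 (f i) (hf i) :=
      Finset.sum_insert ha
    rw [h1, h6]

end orth

section prod

variable {I : Type} [Fintype I] [DecidableEq I] (F : I → Type) [∀ i, Field (F i)]

/-- the idempotents of the product -/
def dl (i : I) : ∀ i, F i := Pi.single i 1

theorem dl_idem (i : I) : dl F i * dl F i = dl F i := by
  unfold dl
  rw [← Pi.single_mul, one_mul]

theorem dl_orth {i j : I} (h : i ≠ j) : dl F i * dl F j = 0 := by
  funext l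
  unfold dl
  rw [Pi.mul_apply, Pi.zero_apply]
  by_cases hl : l = i
  · subst hl
    rw [Pi.single_eq_of_ne h, mul_zero]
  · rw [Pi.single_eq_of_ne hl, zero_mul]

theorem dl_sum : ∑ i, dl F i = 1 := by
  funext l
  rw [Finset.sum_apply, Finset.sum_eq_single l]
  · unfold dl; rw [Pi.single_eq_same]; rfl
  · intro j _ hj
    unfold dl
    rw [Pi.single_eq_of_ne (Ne.symm hj)]
  · intro h; exact absurd (Finset.mem_univ _) h

theorem dl_ne (i : I) : dl F i ≠ 0 := by
  intro h
  have h1 := congrFun h i
  unfold dl at h1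
  rw [Pi.single_eq_same, Pi.zero_apply] at h1
  exact one_ne_zero h1

/-- the class of `r` copies -/
theorem cl_scalar (i : I) (r : ℕ) (h : (dl F i • (1 : Matrix (Fin r) (Fin r) (∀ i, F i))) *
    (dl F i • (1 : Matrix (Fin r) (Fin r) (∀ i, F i))) =
      dl F i • (1 : Matrix (Fin r) (Fin r) (∀ i, F i))) :
    cl0 (dl F i • (1 : Matrix (Fin r) (Fin r) (∀ i, F i))) h = r • cl1 (dl F i) (dl_idem F i) := by
  have hf : ∀ a : Fin r, (Matrix.single a a (dl F i) : Matrix (Fin r) (Fin r) (∀ i, F i)) *
      Matrix.single a a (dl F i) = Matrix.single a a (dl F i) := by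
    intro a
    rw [Matrix.single_mul_single_same, dl_idem]
  obtain ⟨h1, h2⟩ := cl0_sum Finset.univ (fun a : Fin r =>
    (Matrix.single a a (dl F i) : Matrix (Fin r) (Fin r) (∀ i, F i))) hf (by
      intro a b hab
      exact Matrix.single_mul_single_of_ne _ _ _ _ hab _)
  have h3 : dl F i • (1 : Matrix (Fin r) (Fin r) (∀ i, F i)) =
      ∑ a : Fin r, Matrix.single a a (dl F i) := by
    ext1 a b
    rw [Matrix.smul_apply, Matrix.sum_apply]
    by_cases hab : a = b
    · subst hab
      rw [Matrix.one_apply_eq, smul_eq_mul, mul_one, Finset.sum_eq_single a]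
      · rw [Matrix.single_apply_same]
      · intro c _ hc
        rw [Matrix.single_apply_of_row_ne hc]
      · intro h; exact absurd (Finset.mem_univ _) h
    · rw [Matrix.one_apply_ne hab, smul_zero]
      symm
      apply Finset.sum_eq_zero
      intro c _
      by_cases hc : c = a
      · subst hc
        rw [Matrix.single_apply_of_col_ne _ _ hab]
      · rw [Matrix.single_apply_of_row_ne hc]
  have h4 : cl0 (dl F i • (1 : Matrix (Fin r) (Fin r) (∀ i, F i))) h =
      cl0 (∑ a : Fin r, Matrix.single a a (dl F i)) h1 := cl0_eq _ _ h3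
  have h5 : ∀ a : Fin r, cl0 (Matrix.single a a (dl F i) : Matrix (Fin r) (Fin r) (∀ i, F i))
      (hf a) = cl1 (dl F i) (dl_idem F i) := by
    intro a
    unfold cl1
    apply cl0_swap _ _ (Matrix.single a () (dl F i)) (Matrix.single () a (dl F i))
    · rw [Matrix.single_mul_single_same, dl_idem]
    · rw [Matrix.single_mul_single_same, dl_idem]
      ext1 x y
      rw [Matrix.of_apply]
      exact Matrix.single_apply_same _ _ _
  rw [h4, h2, Finset.sum_congr rfl fun a _ => h5 a, Finset.sum_const, Finset.card_univ,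
    Fintype.card_fin]

/-- an idempotent matrix supported at one factor -/
theorem cl_at {n : Type} [Fintype n] [DecidableEq n] (e : Matrix n n (∀ i, F i)) (he : e * e = e)
    (i : I) (h : (dl F i • e) * (dl F i • e) = dl F i • e) :
    ∃ r : ℕ, cl0 (dl F i • e) h = r • cl1 (dl F i) (dl_idem F i) := by
  have he' : e.map (Pi.evalRingHom F i) * e.map (Pi.evalRingHom F i) =
      e.map (Pi.evalRingHom F i) := by
    rw [← Matrix.map_mul, he]
  obtain ⟨r, u, v, huv, hvu⟩ := rank_fact _ he'
  have hr : (dl F i • (1 : Matrix (Fin r) (Fin r) (∀ i, F i))) *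
      (dl F i • (1 : Matrix (Fin r) (Fin r) (∀ i, F i))) =
      dl F i • (1 : Matrix (Fin r) (Fin r) (∀ i, F i)) := by
    rw [Matrix.smul_mul, Matrix.mul_smul, Matrix.one_mul, smul_smul, dl_idem]
  refine ⟨r, ?_⟩
  rw [← cl_scalar F i r hr]
  apply cl0_swap h hr (Matrix.of fun a b => (Pi.single i (u a b) : ∀ i, F i))
    (Matrix.of fun a b => (Pi.single i (v a b) : ∀ i, F i))
  · ext1 a c
    rw [Matrix.mul_apply, Matrix.smul_apply]
    funext l
    rw [Finset.sum_apply]
    by_cases hl : l = i
    · subst hl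
      have h1 := congrFun (congrFun huv a) c
      rw [Matrix.mul_apply] at h1
      simp only [Matrix.of_apply, Pi.mul_apply, Pi.single_eq_same, smul_eq_mul, dl]
      rw [h1, one_mul]
      rfl
    · simp only [Matrix.of_apply, Pi.mul_apply, smul_eq_mul, dl, Pi.single_eq_of_ne hl, zero_mul,
        Finset.sum_const_zero]
  · ext1 a c
    rw [Matrix.mul_apply, Matrix.smul_apply]
    funext l
    rw [Finset.sum_apply]
    by_cases hl : l = i
    · subst hl
      have h1 := congrFun (congrFun hvu a) c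
      rw [Matrix.mul_apply] at h1
      simp only [Matrix.of_apply, Pi.mul_apply, Pi.single_eq_same, smul_eq_mul, dl]
      rw [h1, one_mul]
      by_cases hac : a = c
      · subst hac
        rw [Matrix.one_apply_eq, Matrix.one_apply_eq]
        rfl
      · rw [Matrix.one_apply_ne hac, Matrix.one_apply_ne hac]
        rfl
    · simp only [Matrix.of_apply, Pi.mul_apply, smul_eq_mul, dl, Pi.single_eq_of_ne hl, zero_mul,
        Finset.sum_const_zero]

theorem K0_pi (x : K0 (∀ i, F i)) : ∃ n : I → ℤ, x = ∑ i, n i • cl1 (dl F i) (dl_idem F i) := by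
  induction x using K0.induction with
  | hadd x y hx hy =>
    obtain ⟨n, rfl⟩ := hx
    obtain ⟨m, rfl⟩ := hy
    refine ⟨n + m, ?_⟩
    rw [← Finset.sum_add_distrib]
    exact Finset.sum_congr rfl fun i _ => by rw [Pi.add_apply, add_smul]
  | hneg x hx =>
    obtain ⟨n, rfl⟩ := hx
    refine ⟨-n, ?_⟩
    rw [← Finset.sum_neg_distrib]
    exact Finset.sum_congr rfl fun i _ => by rw [Pi.neg_apply, neg_smul]
  | hcl n e he =>
    have hf : ∀ i : I, (dl F i • e) * (dl F i • e) = dl F i • e := by
      intro i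
      rw [Matrix.smul_mul, Matrix.mul_smul, he, smul_smul, dl_idem]
    obtain ⟨h1, h2⟩ := cl0_sum Finset.univ (fun i : I => dl F i • e) hf (by
      intro i j hij
      rw [Matrix.smul_mul, Matrix.mul_smul, he, smul_smul, dl_orth F hij, zero_smul])
    have h3 : e = ∑ i : I, dl F i • e := by
      rw [← Finset.sum_smul, dl_sum, one_smul]
    have h4 : ∀ i : I, ∃ r : ℕ, cl0 (dl F i • e) (hf i) = r • cl1 (dl F i) (dl_idem F i) :=
      fun i => cl_at F e he i (hf i)
    choose r hr using h4
    refine ⟨fun i => (r i : ℤ), ?_⟩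
    have h5 : cl0 e he = cl0 (∑ i : I, dl F i • e) h1 := cl0_eq _ _ h3
    rw [h5, h2]
    refine Finset.sum_congr rfl fun i _ => ?_
    rw [hr i, natCast_zsmul]

end prod

/-- `K₀` of a commutative semisimple ring -/
theorem K0_semisimple (R : Type) [CommRing R] [IsSemisimpleRing R] :
    ∃ (I : Type) (_ : Fintype I) (d : I → R) (hd : ∀ i, d i * d i = d i),
      (∀ i, d i ≠ 0) ∧ (∀ i j, i ≠ j → d i * d j = 0) ∧
      ∀ x : K0 R, ∃ n : I → ℤ, x = ∑ i, n i • cl1 (d i) (hd i) := by
  classical
  let e : R ≃+* ∀ I : MaximalSpectrum R, R ⧸ I.asIdeal := (IsArtinianRing.equivPi R).toRingEquiv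
  let inst : ∀ I : MaximalSpectrum R, Field (R ⧸ I.asIdeal) :=
    fun I => Ideal.Quotient.field I.asIdeal
  let inst2 : Fintype (MaximalSpectrum R) := Fintype.ofFinite _
  set F : MaximalSpectrum R → Type := fun I => R ⧸ I.asIdeal with hF
  have hd : ∀ i : MaximalSpectrum R, e.symm (dl F i) * e.symm (dl F i) = e.symm (dl F i) := by
    intro i
    rw [← map_mul, dl_idem]
  refine ⟨MaximalSpectrum R, inst2, fun i => e.symm (dl F i), hd, ?_, ?_, ?_⟩
  · intro i h
    apply dl_ne F i
    have h1 := congrArg e h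
    rwa [RingEquiv.apply_symm_apply, map_zero] at h1
  · intro i j hij
    rw [← map_mul, dl_orth F hij, map_zero]
  · intro x
    obtain ⟨n, hn⟩ := K0_pi F (K0.map (e : R →+* ∀ I, F I) x)
    refine ⟨n, ?_⟩
    have h1 : K0.map (e.symm : (∀ I, F I) →+* R) (K0.map (e : R →+* ∀ I, F I) x) = x := by
      rw [K0map_comp]
      have h2 : (e.symm : (∀ I, F I) →+* R).comp (e : R →+* ∀ I, F I) = RingHom.id R := by
        ext y
        exact e.symm_apply_apply y
      rw [h2, K0map_id]
    rw [← h1, hn, map_sum]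
    refine Finset.sum_congr rfl fun i _ => ?_
    rw [map_zsmul]
    have h5 : K0.map (e.symm : (∀ I, F I) →+* R) (cl1 (dl F i) (dl_idem F i)) =
        cl1 (e.symm (dl F i)) (hd i) := by
      unfold cl1
      rw [K0map_cl0]
      exact cl0_eq _ _ (by ext a b; rfl)
    rw [h5]

theorem semisimple_groupAlgebra (F : Type) [Field F] [CharZero F] (C : Type) [CommGroup C]
    [Finite C] : IsSemisimpleRing (MonoidAlgebra F C) := by
  have : NeZero (Nat.card C : F) := ⟨by exact_mod_cast Nat.card_pos.ne'⟩
  infer_instance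

theorem gen : S_Gen := by
  intro F _ _ C _ _ x
  have h1 := semisimple_groupAlgebra F C
  obtain ⟨I, _, d, hd, -, -, h⟩ := K0_semisimple (MonoidAlgebra F C)
  obtain ⟨n, rfl⟩ := h x
  apply AddSubgroup.sum_mem
  intro i _
  apply AddSubgroup.zsmul_mem
  exact AddSubgroup.subset_closure ⟨d i, hd i, rfl⟩

theorem T_cl1 {F : Type} [CommRing F] {C : Type} [CommGroup C] (h : C → ℤ)
    (e : MonoidAlgebra F C) (he : e * e = e) :
    T F h (cl1 e he) = ell (fun g => (h g : F)) e := by
  have hh : IsCls h := fun x y => by rw [mul_comm]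
  unfold cl1
  rw [T_cl0 hh]
  unfold hs
  rw [Fintype.sum_unique]
  rfl

theorem tors : S_Tors := by
  intro F _ _ C _ _ x hx
  classical
  have h1 := semisimple_groupAlgebra F C
  obtain ⟨I, _, d, hd, hd0, hdo, h⟩ := K0_semisimple (MonoidAlgebra F C)
  obtain ⟨n, rfl⟩ := h x
  let _ := Fintype.ofFinite C
  have h2 : ∑ i, (n i : F) • d i = 0 := by
    apply MonoidAlgebra.coeff_injective
    ext c
    have h3 := hx (fun g => if g = c then 1 else 0)
    rw [map_sum] at h3
    have h4 : ∀ i, T F (fun g : C => if g = c then (1 : ℤ) else 0) (n i • cl1 (d i) (hd i)) =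
        (n i : F) * (d i).coeff c := by
      intro i
      rw [map_zsmul, T_cl1, ell_eq_sum _ Finset.univ _ (fun g _ => Finset.mem_univ g),
        Finset.sum_eq_single c]
      · simp
      · intro b _ hb
        simp [hb]
      · intro h; exact absurd (Finset.mem_univ _) h
    rw [Finset.sum_congr rfl fun i _ => h4 i] at h3
    refine Eq.trans ?_ (h3.trans ?_)
    · simp [MonoidAlgebra.coeff_sum]
    · rfl
  apply Finset.sum_eq_zero
  intro j _
  have h3 : (n j : F) • d j = 0 := by
    have h4 := congrArg (fun z => z * d j) h2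
    simp only [zero_mul] at h4
    rw [Finset.sum_mul, Finset.sum_eq_single j] at h4
    · rwa [smul_mul_assoc, hd j] at h4
    · intro i _ hij
      rw [smul_mul_assoc, hdo i j hij, smul_zero]
    · intro h; exact absurd (Finset.mem_univ _) h
  rcases smul_eq_zero.1 h3 with h4 | h4
  · have h5 : n j = 0 := by exact_mod_cast h4
    rw [h5, zero_smul]
  · exact absurd h4 (hd0 j)

end

end Pool.Agent.Y350.NK
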